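import Pool.Agent.H54.RH.Targets

/-!
# MP_def5ca_co, board rhx_modules, row SE: stacking, letters and edges

For a word `e` and a letter `c` the hexagons with the edge `(e, c)` are the words
`Function.update e l 1` with `e l = c`; `Dd X e c` is the set of these places `l` for the hexagons
in `X`. In a closed surface it has 0 or 2 elements. Stacking is a symmetric difference, and if
`Dd` is nonempty for the block and for the old surface, then the two sets have a common element.
-/

set_option autoImplicit false

open Pool.Agent.H54.RH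

namespace Pool.Agent.H4.RHX

section

variable {n : ℕ}

/-- the places which give a hexagon of `X` with the edge `(e, c)` -/
def Dd (X : Finset (W n)) (e : W n) (c : Fin 3) : Finset (Fin n) :=
  Finset.univ.filter fun l => e l = c ∧ Function.update e l 1 ∈ X

lemma mem_Dd {X : Finset (W n)} {e : W n} {c : Fin 3} {l : Fin n} :
    l ∈ Dd X e c ↔ e l = c ∧ Function.update e l 1 ∈ X := by
  unfold Dd
  rw [Finset.mem_filter]
  exact ⟨fun h => h.2, fun h => ⟨Finset.mem_univ _, h⟩⟩

lemma sw_eq {h : W n} {k l : Fin n} {c : Fin 3} (hk : h k = 1) (hl : h l = c) (hc : c ≠ 1) :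
    sw h k l = Function.update (Function.update h k c) l 1 := by
  have hkl : k ≠ l := by
    rintro rfl
    exact hc (hl.symm.trans hk)
  funext t
  unfold sw
  by_cases h1 : t = k
  · subst h1
    rw [if_pos rfl, Function.update_of_ne hkl, Function.update_self, hl]
  · rw [if_neg h1]
    by_cases h2 : t = l
    · subst h2
      rw [if_pos rfl, Function.update_self, hk]
    · rw [if_neg h2, Function.update_of_ne h2, Function.update_of_ne h1]

/-- two hexagons at the edge: the neighbour is unique -/
lemma nb_of_card {X : Finset (W n)} {h : W n} (hX : h ∈ X) {k : Fin n} (hk : h k = 1)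
    {c : Fin 3} (hc : c ≠ 1) (h2 : (Dd X (Function.update h k c) c).card = 2) :
    ∃! l, h l = c ∧ sw h k l ∈ X := by
  have hkD : k ∈ Dd X (Function.update h k c) c := by
    rw [mem_Dd, Function.update_self, Function.update_idem]
    refine ⟨rfl, ?_⟩
    rw [← hk, Function.update_eq_self]
    exact hX
  have key : ∀ l, (h l = c ∧ sw h k l ∈ X) ↔ l ∈ (Dd X (Function.update h k c) c).erase k := by
    intro l
    rw [Finset.mem_erase, mem_Dd]
    constructor
    · rintro ⟨h3, h4⟩
      have hlk : l ≠ k := by
        rintro rfl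
        exact hc (h3.symm.trans hk)
      refine ⟨hlk, ?_, ?_⟩
      · rw [Function.update_of_ne hlk]
        exact h3
      · rw [← sw_eq hk h3 hc]
        exact h4
    · rintro ⟨hlk, h3, h4⟩
      rw [Function.update_of_ne hlk] at h3
      refine ⟨h3, ?_⟩
      rw [sw_eq hk h3 hc]
      exact h4
  have h3 : ((Dd X (Function.update h k c) c).erase k).card = 1 := by
    rw [Finset.card_erase_of_mem hkD, h2]
  obtain ⟨l, hl⟩ := Finset.card_eq_one.1 h3
  refine ⟨l, ?_, ?_⟩
  · change h l = c ∧ sw h k l ∈ X
    rw [key, hl]
    exact Finset.mem_singleton_self l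
  · intro l' hl'
    have h4 := (key l').1 hl'
    rw [hl] at h4
    exact Finset.mem_singleton.1 h4

/-- in a closed surface: zero or two hexagons at an edge -/
lemma card_Dd_good {M : Finset (W n)} {b : ℕ} (hM : Good M b) (e : W n) {c : Fin 3}
    (hc : c ≠ 1) (hne : (Dd M e c).Nonempty) : (Dd M e c).card = 2 := by
  obtain ⟨l, hl⟩ := hne
  rw [mem_Dd] at hl
  obtain ⟨h1, h2⟩ := hl
  have h3 : (Function.update e l 1) l = 1 := Function.update_self _ _ _
  obtain ⟨l', ⟨h4, h5⟩, h6⟩ := hM.edge _ h2 l h3 c hc
  have h7 : ∀ l'', (Function.update e l 1) l'' = c →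
      sw (Function.update e l 1) l l'' = Function.update e l'' 1 := by
    intro l'' hl''
    rw [sw_eq h3 hl'' hc, Function.update_idem, ← h1, Function.update_eq_self]
  have hll' : l ≠ l' := by
    rintro rfl
    exact hc (h4.symm.trans h3)
  have h8 : Dd M e c = {l, l'} := by
    ext t
    rw [mem_Dd, Finset.mem_insert, Finset.mem_singleton]
    constructor
    · rintro ⟨h9, h10⟩
      by_cases htl : t = l
      · exact Or.inl htl
      · right
        apply h6
        have h11 : (Function.update e l 1) t = c := by
          rw [Function.update_of_ne htl]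
          exact h9
        refine ⟨h11, ?_⟩
        rw [h7 t h11]
        exact h10
    · rintro (rfl | rfl)
      · exact ⟨h1, h2⟩
      · have h9 := h4
        rw [Function.update_of_ne (Ne.symm hll')] at h9
        refine ⟨h9, ?_⟩
        rw [← h7 t h4]
        exact h5
  rw [h8, Finset.card_pair hll']

/-! ### The old surface -/

lemma up_succ (h : W n) (t : Fin n) : up h t.succ = h t := by
  unfold up
  rw [Fin.cons_succ]

lemma up_zero (h : W n) : up h 0 = 0 := by
  unfold up
  rw [Fin.cons_zero]

lemma up_ext {g : W (n + 1)} {h : W n} (h0 : g 0 = 0) (h1 : ∀ t : Fin n, g t.succ = h t) :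
    g = up h := by
  funext t
  refine Fin.cases ?_ (fun i => ?_) t
  · rw [h0, up_zero]
  · rw [h1, up_succ]

lemma mem_image_up {M : Finset (W n)} {g : W (n + 1)} :
    g ∈ M.image up ↔ g 0 = 0 ∧ (fun t : Fin n => g t.succ) ∈ M := by
  rw [Finset.mem_image]
  constructor
  · rintro ⟨h, hM, rfl⟩
    refine ⟨up_zero h, ?_⟩
    have : (fun t : Fin n => up h t.succ) = h := funext fun t => up_succ h t
    rw [this]
    exact hM
  · rintro ⟨h0, hM⟩
    exact ⟨_, hM, (up_ext h0 fun t => rfl).symm⟩

lemma tail_update (e : W (n + 1)) (l : Fin n) :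
    (fun t : Fin n => (Function.update e l.succ 1) t.succ) =
      Function.update (fun t : Fin n => e t.succ) l 1 := by
  funext t
  by_cases h : t = l
  · subst h
    rw [Function.update_self, Function.update_self]
  · rw [Function.update_of_ne h, Function.update_of_ne (fun h' => h (Fin.succ_injective _ h'))]

lemma Dd_up {M : Finset (W n)} {e : W (n + 1)} {c : Fin 3}
    (hne : (Dd (M.image up) e c).Nonempty) :
    e 0 = 0 ∧ Dd (M.image up) e c = (Dd M (fun t => e t.succ) c).map (Fin.succEmb n) := by
  obtain ⟨l, hl⟩ := hne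
  rw [mem_Dd, mem_image_up] at hl
  have hl0 : l ≠ 0 := by
    rintro rfl
    have := hl.2.1
    rw [Function.update_self] at this
    exact absurd this (by decide)
  have he0 : e 0 = 0 := by
    have := hl.2.1
    rwa [Function.update_of_ne (Ne.symm hl0)] at this
  refine ⟨he0, ?_⟩
  ext t
  rw [Finset.mem_map, mem_Dd, mem_image_up]
  constructor
  · rintro ⟨h1, h2, h3⟩
    have ht0 : t ≠ 0 := by
      rintro rfl
      rw [Function.update_self] at h2
      exact absurd h2 (by decide)
    obtain ⟨t', rfl⟩ := Fin.exists_succ_eq.2 ht0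
    refine ⟨t', ?_, rfl⟩
    rw [mem_Dd]
    rw [tail_update] at h3
    exact ⟨h1, h3⟩
  · rintro ⟨t', ht', rfl⟩
    rw [mem_Dd] at ht'
    change e t'.succ = c ∧ (Function.update e t'.succ 1) 0 = 0 ∧
      (fun t : Fin n => (Function.update e t'.succ 1) t.succ) ∈ M
    rw [tail_update, Function.update_of_ne (Ne.symm (Fin.succ_ne_zero t'))]
    exact ⟨ht'.1, he0, ht'.2⟩

lemma card_Dd_up {M : Finset (W n)} {b : ℕ} (hM : Good M b) (e : W (n + 1)) {c : Fin 3}
    (hc : c ≠ 1) (hne : (Dd (M.image up) e c).Nonempty) : (Dd (M.image up) e c).card = 2 := by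
  have h1 := (Dd_up hne).2
  rw [h1, Finset.map_nonempty] at hne
  rw [h1, Finset.card_map]
  exact card_Dd_good hM _ hc hne

/-! ### The block -/

/-- the five places of the block -/
def PPl (q : W n) : Finset (Fin (n + 1)) := insert 0 ((act q).map (Fin.succEmb n))

lemma mem_PPl {q : W n} {t : Fin n} : t.succ ∈ PPl q ↔ q t = 1 := by
  unfold PPl
  rw [Finset.mem_insert, Finset.mem_map]
  constructor
  · rintro (h | ⟨t', ht', h⟩)
    · exact absurd h (Fin.succ_ne_zero t)
    · have h1 : t' = t := Fin.succ_injective _ h
      rw [h1] at ht'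
      unfold act at ht'
      exact (Finset.mem_filter.1 ht').2
  · intro h
    right
    refine ⟨t, ?_, rfl⟩
    unfold act
    rw [Finset.mem_filter]
    exact ⟨Finset.mem_univ _, h⟩

lemma zero_mem_PPl (q : W n) : 0 ∈ PPl q := Finset.mem_insert_self _ _

lemma card_PPl {q : W n} (hq : (act q).card = 4) : (PPl q).card = 5 := by
  unfold PPl
  rw [Finset.card_insert_of_notMem, Finset.card_map, hq]
  rw [Finset.mem_map]
  rintro ⟨t, _, h⟩
  exact Fin.succ_ne_zero t h

lemma mem_blk {q : W n} {g : W (n + 1)} : g ∈ blk q ↔ (∀ t, q t ≠ 1 → g t.succ = q t) ∧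
    (act g).card = 3 ∧ (two g).card = (two q).card + 1 := by
  unfold blk
  rw [Finset.mem_filter]
  exact ⟨fun h => h.2, fun h => ⟨Finset.mem_univ _, h⟩⟩

lemma blk_off {q : W n} {g : W (n + 1)} (hg : g ∈ blk q) {t : Fin (n + 1)} (ht : t ∉ PPl q) :
    ∃ t' : Fin n, t = t'.succ ∧ q t' ≠ 1 ∧ g t = q t' := by
  have ht0 : t ≠ 0 := by
    rintro rfl
    exact ht (zero_mem_PPl q)
  obtain ⟨t', rfl⟩ := Fin.exists_succ_eq.2 ht0
  rw [mem_PPl] at ht
  exact ⟨t', rfl, ht, (mem_blk.1 hg).1 t' ht⟩

/-- the letters of an element of the block -/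
lemma blk_cards {q : W n} (hq : (act q).card = 4) {g : W (n + 1)} (hg : g ∈ blk q) :
    ((PPl q).filter fun t => g t = 1).card = 3 ∧ ((PPl q).filter fun t => g t = 2).card = 1 ∧
      ((PPl q).filter fun t => g t = 0).card = 1 := by
  obtain ⟨h1, h2, h3⟩ := mem_blk.1 hg
  have e1 : ((PPl q).filter fun t => g t = 1).card = 3 := by
    refine Eq.trans ?_ h2
    congr 1
    ext t
    unfold act
    rw [Finset.mem_filter, Finset.mem_filter]
    constructor
    · rintro ⟨_, h⟩
      exact ⟨Finset.mem_univ _, h⟩
    · rintro ⟨_, h⟩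
      refine ⟨?_, h⟩
      by_contra ht
      obtain ⟨t', _, h4, h5⟩ := blk_off hg ht
      exact h4 (h5.symm.trans h)
  have e2 : ((PPl q).filter fun t => g t = 2).card = 1 := by
    have e3 : two g = ((PPl q).filter fun t => g t = 2) ∪ (two q).map (Fin.succEmb n) := by
      ext t
      unfold two
      rw [Finset.mem_union, Finset.mem_filter, Finset.mem_filter, Finset.mem_map]
      constructor
      · rintro ⟨_, h⟩
        by_cases ht : t ∈ PPl q
        · exact Or.inl ⟨ht, h⟩
        · right
          obtain ⟨t', rfl, h4, h5⟩ := blk_off hg ht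
          refine ⟨t', ?_, rfl⟩
          rw [Finset.mem_filter]
          exact ⟨Finset.mem_univ _, h5.symm.trans h⟩
      · rintro (⟨_, h⟩ | ⟨t', ht', rfl⟩)
        · exact ⟨Finset.mem_univ _, h⟩
        · rw [Finset.mem_filter] at ht'
          refine ⟨Finset.mem_univ _, ?_⟩
          change g t'.succ = 2
          rw [h1 t' (by rw [ht'.2]; decide), ht'.2]
    have e4 : Disjoint ((PPl q).filter fun t => g t = 2) ((two q).map (Fin.succEmb n)) := by
      rw [Finset.disjoint_left]
      intro t ht ht'
      rw [Finset.mem_filter] at ht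
      rw [Finset.mem_map] at ht'
      obtain ⟨t', h4, rfl⟩ := ht'
      have h5 := mem_PPl.1 ht.1
      unfold two at h4
      rw [Finset.mem_filter] at h4
      rw [h4.2] at h5
      exact absurd h5 (by decide)
    rw [e3, Finset.card_union_of_disjoint e4, Finset.card_map] at h3
    omega
  refine ⟨e1, e2, ?_⟩
  have e5 : (PPl q).card = ∑ c : Fin 3, ((PPl q).filter fun t => g t = c).card :=
    Finset.card_eq_sum_card_fiberwise (f := g) (t := Finset.univ) fun t _ => Finset.mem_univ _
  rw [card_PPl hq, Fin.sum_univ_three] at e5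
  omega

lemma card_sw (g : W n) (k l : Fin n) (c : Fin 3) :
    (Finset.univ.filter fun t => sw g k l t = c).card = (Finset.univ.filter fun t => g t = c).card := by
  have h1 : ∀ t, sw g k l t = g (Equiv.swap k l t) := by
    intro t
    unfold sw
    by_cases h1 : t = k
    · rw [if_pos h1, h1, Equiv.swap_apply_left]
    · rw [if_neg h1]
      by_cases h2 : t = l
      · rw [if_pos h2, h2, Equiv.swap_apply_right]
      · rw [if_neg h2, Equiv.swap_apply_of_ne_of_ne h1 h2]
  refine Finset.card_bij (fun t _ => Equiv.swap k l t) ?_ ?_ ?_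
  · intro t ht
    rw [Finset.mem_filter] at ht ⊢
    rw [h1] at ht
    exact ⟨Finset.mem_univ _, ht.2⟩
  · intro t _ t' _ h
    exact (Equiv.swap k l).injective h
  · intro t ht
    rw [Finset.mem_filter] at ht
    refine ⟨Equiv.swap k l t, ?_, Equiv.swap_apply_self _ _ _⟩
    rw [Finset.mem_filter]
    refine ⟨Finset.mem_univ _, ?_⟩
    rw [h1, Equiv.swap_apply_self]
    exact ht.2

lemma sw_mem_blk {q : W n} {g : W (n + 1)} (hg : g ∈ blk q) {k l : Fin (n + 1)}
    (hk : k ∈ PPl q) (hl : l ∈ PPl q) : sw g k l ∈ blk q := by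
  obtain ⟨h1, h2, h3⟩ := mem_blk.1 hg
  rw [mem_blk]
  refine ⟨?_, ?_, ?_⟩
  · intro t ht
    have hk' : t.succ ≠ k := by
      intro h
      rw [← h, mem_PPl] at hk
      exact ht hk
    have hl' : t.succ ≠ l := by
      intro h
      rw [← h, mem_PPl] at hl
      exact ht hl
    unfold sw
    rw [if_neg hk', if_neg hl']
    exact h1 t ht
  · exact (card_sw g k l 1).trans h2
  · exact (card_sw g k l 2).trans h3

lemma card_Dd_blk {q : W n} (hq : (act q).card = 4) (e : W (n + 1)) {c : Fin 3}
    (hc : c ≠ 1) (hne : (Dd (blk q) e c).Nonempty) : (Dd (blk q) e c).card = 2 := by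
  obtain ⟨l, hl⟩ := hne
  rw [mem_Dd] at hl
  obtain ⟨h1, h2⟩ := hl
  set g := Function.update e l 1 with hg
  have h3 : g l = 1 := Function.update_self _ _ _
  obtain ⟨c1, c2, c3⟩ := blk_cards hq h2
  have hlP : l ∈ PPl q := by
    by_contra hcon
    obtain ⟨t', _, h4, h5⟩ := blk_off h2 hcon
    exact h4 (h5.symm.trans h3)
  have hone : ((PPl q).filter fun t => g t = c).card = 1 := by
    match c, hc with
    | 0, _ => exact c3
    | 1, h => exact absurd rfl h
    | 2, _ => exact c2
  obtain ⟨l', hl'⟩ := Finset.card_eq_one.1 hone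
  have hl'm : l' ∈ (PPl q).filter fun t => g t = c := by
    rw [hl']
    exact Finset.mem_singleton_self _
  rw [Finset.mem_filter] at hl'm
  obtain ⟨hl'P, h4⟩ := hl'm
  have hll' : l ≠ l' := by
    rintro rfl
    exact hc (h4.symm.trans h3)
  have h7 : ∀ l'', g l'' = c → sw g l l'' = Function.update e l'' 1 := by
    intro l'' hl''
    rw [sw_eq h3 hl'' hc, hg, Function.update_idem, ← h1, Function.update_eq_self]
  have h8 : Dd (blk q) e c = {l, l'} := by
    ext t
    rw [mem_Dd, Finset.mem_insert, Finset.mem_singleton]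
    constructor
    · rintro ⟨h9, h10⟩
      by_cases htl : t = l
      · exact Or.inl htl
      · right
        have h11 : g t = c := by
          rw [hg, Function.update_of_ne htl]
          exact h9
        have htP : t ∈ PPl q := by
          by_contra hcon
          obtain ⟨t', _, h12, h13⟩ := blk_off h10 hcon
          rw [Function.update_self] at h13
          exact h12 h13.symm
        have h12 : t ∈ (PPl q).filter fun t => g t = c := by
          rw [Finset.mem_filter]
          exact ⟨htP, h11⟩
        rw [hl'] at h12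
        exact Finset.mem_singleton.1 h12
    · rintro (rfl | rfl)
      · exact ⟨h1, h2⟩
      · have h9 := h4
        rw [hg, Function.update_of_ne (Ne.symm hll')] at h9
        refine ⟨h9, ?_⟩
        rw [← h7 t h4]
        exact sw_mem_blk h2 hlP hl'P
  rw [h8, Finset.card_pair hll']

/-- the elements of the block with the letter 0 at the new place -/
lemma blk_zero {q : W n} (hq : (act q).card = 4) {g : W (n + 1)} (hg : g ∈ blk q)
    (h0 : g 0 = 0) : ∃ w, q w = 1 ∧ g = up (Function.update q w 2) := by
  obtain ⟨c1, c2, c3⟩ := blk_cards hq hg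
  obtain ⟨p, hp⟩ := Finset.card_eq_one.1 c2
  obtain ⟨z, hz⟩ := Finset.card_eq_one.1 c3
  have hpm : p ∈ (PPl q).filter fun t => g t = 2 := by
    rw [hp]
    exact Finset.mem_singleton_self _
  rw [Finset.mem_filter] at hpm
  have hz0 : z = 0 := by
    have : (0 : Fin (n + 1)) ∈ (PPl q).filter fun t => g t = 0 := by
      rw [Finset.mem_filter]
      exact ⟨zero_mem_PPl q, h0⟩
    rw [hz] at this
    exact (Finset.mem_singleton.1 this).symm
  have hp0 : p ≠ 0 := by
    rintro rfl
    rw [h0] at hpm
    exact absurd hpm.2 (by decide)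
  obtain ⟨w, rfl⟩ := Fin.exists_succ_eq.2 hp0
  refine ⟨w, mem_PPl.1 hpm.1, up_ext h0 fun t => ?_⟩
  by_cases htw : t = w
  · rw [htw, Function.update_self]
    exact hpm.2
  · rw [Function.update_of_ne htw]
    by_cases hqt : q t = 1
    · have e1 : g t.succ ≠ 2 := by
        intro h
        have : t.succ ∈ (PPl q).filter fun t => g t = 2 := by
          rw [Finset.mem_filter]
          exact ⟨mem_PPl.2 hqt, h⟩
        rw [hp] at this
        exact htw (Fin.succ_injective _ (Finset.mem_singleton.1 this))
      have e2 : g t.succ ≠ 0 := by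
        intro h
        have : t.succ ∈ (PPl q).filter fun t => g t = 0 := by
          rw [Finset.mem_filter]
          exact ⟨mem_PPl.2 hqt, h⟩
        rw [hz, hz0] at this
        exact Fin.succ_ne_zero t (Finset.mem_singleton.1 this)
      rw [hqt]
      generalize g t.succ = a at e1 e2
      revert a
      decide
    · exact (mem_blk.1 hg).1 t hqt

lemma Dd_symm (A B : Finset (W n)) (e : W n) (c : Fin 3) :
    Dd (symmDiff A B) e c = symmDiff (Dd A e c) (Dd B e c) := by
  ext t
  rw [Finset.mem_symmDiff, mem_Dd, mem_Dd, mem_Dd, Finset.mem_symmDiff]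
  tauto

lemma card_act_up (h : W n) : (act (up h)).card = (act h).card := by
  have h1 : act (up h) = (act h).map (Fin.succEmb n) := by
    ext t
    unfold act
    rw [Finset.mem_map, Finset.mem_filter]
    constructor
    · rintro ⟨_, h1⟩
      have ht0 : t ≠ 0 := by
        rintro rfl
        rw [up_zero] at h1
        exact absurd h1 (by decide)
      obtain ⟨t', rfl⟩ := Fin.exists_succ_eq.2 ht0
      rw [up_succ] at h1
      refine ⟨t', ?_, rfl⟩
      rw [Finset.mem_filter]
      exact ⟨Finset.mem_univ _, h1⟩
    · rintro ⟨t', ht', rfl⟩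
      rw [Finset.mem_filter] at ht'
      refine ⟨Finset.mem_univ _, ?_⟩
      change up h t'.succ = 1
      rw [up_succ]
      exact ht'.2
  rw [h1, Finset.card_map]

lemma card_two_up (h : W n) : (two (up h)).card = (two h).card := by
  have h1 : two (up h) = (two h).map (Fin.succEmb n) := by
    ext t
    unfold two
    rw [Finset.mem_map, Finset.mem_filter]
    constructor
    · rintro ⟨_, h1⟩
      have ht0 : t ≠ 0 := by
        rintro rfl
        rw [up_zero] at h1
        exact absurd h1 (by decide)
      obtain ⟨t', rfl⟩ := Fin.exists_succ_eq.2 ht0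
      rw [up_succ] at h1
      refine ⟨t', ?_, rfl⟩
      rw [Finset.mem_filter]
      exact ⟨Finset.mem_univ _, h1⟩
    · rintro ⟨t', ht', rfl⟩
      rw [Finset.mem_filter] at ht'
      refine ⟨Finset.mem_univ _, ?_⟩
      change up h t'.succ = 2
      rw [up_succ]
      exact ht'.2
  rw [h1, Finset.card_map]

end

theorem se : T_SE := by
  intro n b M q hM hF
  obtain ⟨hq, hfull⟩ := hF
  have hb : (two q).card + 1 = b := by
    have h1 : (act q).Nonempty := by
      rw [← Finset.card_pos, hq]
      norm_num
    obtain ⟨w, hw⟩ := h1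
    unfold act at hw
    rw [Finset.mem_filter] at hw
    rw [← (hM.three _ (hfull w hw.2)).2]
    have h2 : two (Function.update q w 2) = insert w (two q) := by
      ext t
      unfold two
      rw [Finset.mem_insert, Finset.mem_filter, Finset.mem_filter]
      by_cases htw : t = w
      · rw [htw, Function.update_self]
        simp
      · rw [Function.update_of_ne htw]
        simp [htw]
    rw [h2, Finset.card_insert_of_notMem]
    unfold two
    rw [Finset.mem_filter, hw.2]
    rintro ⟨_, h⟩
    exact absurd h (by decide)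
  refine ⟨?_, ?_⟩
  · intro h hh
    unfold stk at hh
    rw [Finset.mem_symmDiff] at hh
    rcases hh with ⟨h1, _⟩ | ⟨h1, _⟩
    · obtain ⟨h', hM', rfl⟩ := Finset.mem_image.1 h1
      rw [card_act_up, card_two_up]
      exact hM.three _ hM'
    · obtain ⟨_, h2, h3⟩ := mem_blk.1 h1
      exact ⟨h2, h3.trans hb⟩
  · intro h hh k hk c hc
    apply nb_of_card hh hk hc
    have hne : (Dd (stk M q) (Function.update h k c) c).Nonempty := by
      refine ⟨k, ?_⟩
      rw [mem_Dd, Function.update_self, Function.update_idem]
      refine ⟨rfl, ?_⟩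
      rw [← hk, Function.update_eq_self]
      exact hh
    set e := Function.update h k c with he
    unfold stk at hne ⊢
    rw [Dd_symm] at hne ⊢
    by_cases hB : (Dd (blk q) e c).Nonempty
    · by_cases hA : (Dd (M.image up) e c).Nonempty
      · have cA := card_Dd_up hM e hc hA
        have cB := card_Dd_blk hq e hc hB
        have he0 := (Dd_up hA).1
        -- a common element
        have hI : (Dd (M.image up) e c ∩ Dd (blk q) e c).Nonempty := by
          have h1 : ∃ l ∈ Dd (blk q) e c, l ≠ 0 := by
            by_contra hcon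
            push Not at hcon
            have h2 : Dd (blk q) e c ⊆ {0} := by
              intro l hl
              rw [Finset.mem_singleton]
              exact hcon l hl
            have h3 := Finset.card_le_card h2
            rw [cB, Finset.card_singleton] at h3
            omega
          obtain ⟨l, hl, hl0⟩ := h1
          refine ⟨l, ?_⟩
          rw [Finset.mem_inter]
          refine ⟨?_, hl⟩
          rw [mem_Dd] at hl ⊢
          refine ⟨hl.1, ?_⟩
          obtain ⟨w, hw, hgw⟩ := blk_zero hq hl.2 (by
            rw [Function.update_of_ne (Ne.symm hl0)]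
            exact he0)
          rw [hgw]
          exact Finset.mem_image_of_mem up (hfull w hw)
        have h4 : (symmDiff (Dd (M.image up) e c) (Dd (blk q) e c)).card +
            2 * (Dd (M.image up) e c ∩ Dd (blk q) e c).card = 4 := by
          have h5 : symmDiff (Dd (M.image up) e c) (Dd (blk q) e c) =
              (Dd (M.image up) e c \ Dd (blk q) e c) ∪ (Dd (blk q) e c \ Dd (M.image up) e c) :=
            rfl
          rw [h5, Finset.card_union_of_disjoint (by
            rw [Finset.disjoint_left]
            intro t ht ht'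
            rw [Finset.mem_sdiff] at ht ht'
            exact ht.2 ht'.1)]
          have h6 := Finset.card_sdiff_add_card_inter (Dd (M.image up) e c) (Dd (blk q) e c)
          have h7 := Finset.card_sdiff_add_card_inter (Dd (blk q) e c) (Dd (M.image up) e c)
          rw [Finset.inter_comm] at h7
          omega
        have h5 := Finset.card_pos.2 hI
        have h6 := Finset.card_pos.2 hne
        omega
      · rw [Finset.not_nonempty_iff_eq_empty] at hA
        rw [hA, ← Finset.bot_eq_empty, bot_symmDiff]
        exact card_Dd_blk hq e hc hB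
    · rw [Finset.not_nonempty_iff_eq_empty] at hB
      rw [hB, ← Finset.bot_eq_empty, symmDiff_bot] at hne ⊢
      exact card_Dd_up hM e hc hne

theorem pf_SE (_h0 : T_SA) : T_SE := se

end Pool.Agent.H4.RHX
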